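import Mathlib

/-!
# A multiplicative relation between the numbers `t! / t ^ t`

`f(3) f(5) f(6) f(7) f(8) f(14) f(16) f(20) f(36) = f(4) f(10) f(12) f(15) f(18) f(21) f(32)` for
`f(t) = t! / t ^ t`. (Such relations exist for counting reasons; this one was found by lattice reduction.)
-/

set_option autoImplicit false

namespace Pool.Agent.Results.MP_f92aba_nt.Relation

/-- `f(t) = Γ(1 + t) t ^ (-t) = t! / t ^ t` for a positive integer `t` -/
def f (t : ℕ) : ℚ := (t.factorial : ℚ) / (t : ℚ) ^ t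

/-- sanity check: `f t = Γ(1 + t) * t ^ (-t)` -/
lemma f_eq_Gamma (t : ℕ) : (f t : ℝ) = Real.Gamma (1 + t) * (t : ℝ) ^ (-(t : ℝ)) := by
  rw [f, add_comm, Real.Gamma_nat_eq_factorial, Real.rpow_neg (Nat.cast_nonneg t),
    Real.rpow_natCast]
  push_cast
  rw [div_eq_mul_inv]

/-- **The uniqueness fails.** There are two different finite sets `T`, `S` of integers `≥ 2` with
`∏_{t ∈ T} t!/t^t = ∏_{s ∈ S} s!/s^s`; `T = {3,5,6,7,8,14,16,20,36}` and `S = {4,10,12,15,18,21,32}`, which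
do not even have the same number of elements. -/
theorem result : ∃ T S : Finset ℕ, (∀ t ∈ T, 2 ≤ t) ∧ (∀ s ∈ S, 2 ≤ s) ∧
    T.card = 9 ∧ S.card = 7 ∧ T ≠ S ∧ ∏ t ∈ T, f t = ∏ s ∈ S, f s := by
  refine ⟨{3, 5, 6, 7, 8, 14, 16, 20, 36}, {4, 10, 12, 15, 18, 21, 32}, by decide, by decide,
    by decide, by decide, by decide, ?_⟩
  rw [show (∏ t ∈ ({3, 5, 6, 7, 8, 14, 16, 20, 36} : Finset ℕ), f t) =
    f 3 * (f 5 * (f 6 * (f 7 * (f 8 * (f 14 * (f 16 * (f 20 * f 36))))))) by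
      simp [Finset.prod_insert],
    show (∏ s ∈ ({4, 10, 12, 15, 18, 21, 32} : Finset ℕ), f s) =
    f 4 * (f 10 * (f 12 * (f 15 * (f 18 * (f 21 * f 32))))) by simp [Finset.prod_insert]]
  simp only [f, Nat.factorial]
  norm_num

end Pool.Agent.Results.MP_f92aba_nt.Relation
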